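import Pool.Agent.Y403.CH.Deg2

/-!
# MP_08b96b_lc: two vertices on a common hole, bipartite graphs with all degrees at most seven

The reduction of the starting result is applied to formulas in which every literal occurs at most
three times (every variable gets one copy for each occurrence of a literal in the formula; cyclic
implications make the copies equal).
-/

set_option autoImplicit false

namespace Pool.Agent.Results.MP_08b96b_lc.DegreeSeven

open Pool.Agent.NPC Pool.Agent.H673R2 Pool.Agent.W982.Hole

/-- All vertices have degree at most `d`. -/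
def DegreeAtMost {n : ℕ} (d : ℕ) (G : SimpleGraph (Fin n)) : Prop :=
  ∀ x, (G.neighborSet x).ncard ≤ d

/-- It is `NP`-hard to decide whether two given vertices of a bipartite (hence perfect) graph with
all degrees at most seven lie on a common hole; and if `P ≠ NP`, then no polynomial-time algorithm
decides this for these graphs. -/
theorem result :
    NPHardOn (fun I => Valid I ∧ IsPerfect (graphOf I) ∧ (graphOf I).IsBipartite ∧
      DegreeAtMost 7 (graphOf I)) OnCommonHole ∧
    (PneNP → ¬ ∃ A : List Bool → List Bool, PolyTime A ∧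
      ∀ I : Inst, Valid I → (graphOf I).IsBipartite → DegreeAtMost 7 (graphOf I) →
        (A (bits I) = [true] ↔ OnCommonHole I)) := by
  have main : NPHardOn (fun I => Valid I ∧ IsPerfect (graphOf I) ∧ (graphOf I).IsBipartite ∧
      DegreeAtMost 7 (graphOf I)) OnCommonHole := by
    refine npHardOn_of Pool.Agent.Y403.CH.hard_src p_inst ?_ ?_
    · rintro ψ ⟨φ, hb, hne, rfl⟩
      have hb' := Pool.Agent.Y403.CH.sp_bounded hb
      exact ⟨valid hb', isPerfect_of_isBipartite (bipartite hb'), bipartite hb',
        Pool.Agent.Y403.CH.degree_le hb⟩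
    · rintro ψ ⟨φ, hb, hne, rfl⟩
      have hne' : Pool.Agent.Y403.CH.sp φ ≠ [] := by
        intro h0
        have h1 := Pool.Agent.Y403.CH.sp_length φ
        rw [h0, List.length_nil] at h1
        have h2 := List.length_pos_iff.2 hne
        omega
      exact main_iff (Pool.Agent.Y403.CH.sp_bounded hb) hne'
  refine ⟨main, ?_⟩
  rintro ⟨L, hL, hL'⟩ ⟨A, hA, hd⟩
  apply hL'
  obtain ⟨g, hg, hgp, hgL⟩ := main L hL
  exact ⟨fun x => A (bits (g x)),
    H642R2.TMSim.polyTime_comp (g := A) (f := fun x => bits (g x)) hA hg,
    fun x => (hgL x).trans (hd _ (hgp x).1 (hgp x).2.2.1 (hgp x).2.2.2).symm⟩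

end Pool.Agent.Results.MP_08b96b_lc.DegreeSeven
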